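import Mathlib

/-!
# Curvature of a metric on `ℝ⁴` in coordinates

Helper definitions for the Burago-Kleiner question (`MP_d63641_gt`).
-/

open scoped BigOperators

namespace Pool.Agent.W543.BK

/-- Coordinate space. -/
abbrev V4 := Fin 4 → ℝ

/-- Coordinate vectors. -/
abbrev ee (i : Fin 4) : V4 := Pi.single i 1

/-- Christoffel symbols of the first kind. -/
noncomputable def Gam (g : Fin 4 → Fin 4 → V4 → ℝ) (a k l : Fin 4) (x : V4) : ℝ :=
  (fderiv ℝ (g l a) x (ee k) + fderiv ℝ (g k a) x (ee l) - fderiv ℝ (g k l) x (ee a)) / 2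

/-- The part of the curvature tensor with second derivatives. -/
noncomputable def Sec (g : Fin 4 → Fin 4 → V4 → ℝ) (i k l m : Fin 4) (x : V4) : ℝ :=
  (fderiv ℝ (fun y => fderiv ℝ (g i m) y (ee k)) x (ee l)
    + fderiv ℝ (fun y => fderiv ℝ (g k l) y (ee i)) x (ee m)
    - fderiv ℝ (fun y => fderiv ℝ (g i l) y (ee k)) x (ee m)
    - fderiv ℝ (fun y => fderiv ℝ (g k m) y (ee i)) x (ee l)) / 2

/-- The curvature tensor. -/
noncomputable def Rm (g : Fin 4 → Fin 4 → V4 → ℝ) (i k l m : Fin 4) (x : V4) : ℝ :=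
  Sec g i k l m x + ∑ a, ∑ b, (Matrix.of fun p q => g p q x)⁻¹ a b *
    (Gam g a k l x * Gam g b i m x - Gam g a k m x * Gam g b i l x)

/-- The numerator of the sectional curvature. -/
noncomputable def Kn (g : Fin 4 → Fin 4 → V4 → ℝ) (x u v : V4) : ℝ :=
  ∑ i, ∑ k, ∑ l, ∑ m, Rm g i k l m x * u i * v k * u l * v m

/-- The pull-back of a metric. -/
noncomputable def pull (φ : V4 → V4) (g : Fin 4 → Fin 4 → V4 → ℝ) (i j : Fin 4) (x : V4) : ℝ :=
  ∑ p, ∑ q, g p q (φ x) * fderiv ℝ φ x (ee i) p * fderiv ℝ φ x (ee j) q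

/-- Transformation of the Christoffel symbols. -/
def TaskGam : Prop :=
  ∀ (g : Fin 4 → Fin 4 → V4 → ℝ) (φ : V4 → V4), (∀ i j, ContDiff ℝ 2 (g i j)) →
    (∀ i j x, g i j x = g j i x) → ContDiff ℝ 3 φ → ∀ (x : V4) (a k l : Fin 4),
    Gam (pull φ g) a k l x =
      ∑ p, ∑ q, ∑ r, Gam g p q r (φ x) * fderiv ℝ φ x (ee a) p * fderiv ℝ φ x (ee k) q *
        fderiv ℝ φ x (ee l) r +
      ∑ p, ∑ q, g p q (φ x) * fderiv ℝ φ x (ee a) p *
        fderiv ℝ (fun y => fderiv ℝ φ y (ee k)) x (ee l) q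

/-- Transformation of the curvature. -/
def TaskPull : Prop :=
  ∀ (g : Fin 4 → Fin 4 → V4 → ℝ) (φ : V4 → V4), (∀ i j, ContDiff ℝ 2 (g i j)) →
    (∀ i j x, g i j x = g j i x) → ContDiff ℝ 3 φ → ∀ x : V4,
    IsUnit (Matrix.of fun p q => g p q (φ x)).det →
    Function.Injective (fderiv ℝ φ x) → ∀ u v : V4,
    Kn (pull φ g) x u v = Kn g (φ x) (fderiv ℝ φ x u) (fderiv ℝ φ x v)

end Pool.Agent.W543.BK
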